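import Mathlib

namespace Pool.Agent.H.MP_d97c10_lc

universe u

theorem wf_lower (W : Type u) [Preorder W] [WellQuasiOrderedLE W] :
    WellFounded (fun D' D : LowerSet W => D' < D) := by
  rw [wellFounded_iff_isEmpty_descending_chain]
  refine ⟨fun ⟨f, hf⟩ => ?_⟩
  have : ∀ n, ∃ x, x ∈ f n ∧ x ∉ f (n + 1) := fun n =>
    Set.exists_of_ssubset (LowerSet.coe_ssubset_coe.2 (hf n))
  choose x h1 h2 using this
  obtain ⟨m, n, hmn, h⟩ := wellQuasiOrdered_le x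
  have : Antitone f := antitone_nat_of_succ_le (fun n => (hf n).le)
  exact h2 m ((f (m + 1)).lower h (this hmn (h1 n)))

theorem tune {W : Type u} [Preorder W] [WellQuasiOrderedLE W] {R : W → W → Prop}
    (r1 : ∀ x y, R x y → x ≤ y) (r2 : ∀ x y z, x ≤ y → R y z → R x z) (D : LowerSet W) :
    ∀ (C : Type) [Finite C] (c : W → C), (∀ x y, c x = c y → x ∈ D → y ∈ D) →
      (∀ x y, x ∉ D → c x = c y → ∀ x', R x x' → ∃ y', R y y' ∧ c y' = c x') →
      ∃ (C' : Type) (_ : Finite C') (c' : W → C'), (∀ x y, c' x = c' y → c x = c y) ∧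
        ∀ x y, c' x = c' y → ∀ x', R x x' → ∃ y', R y y' ∧ c' y' = c' x' := by
  induction D using (wf_lower W).induction with | _ D ih => ?_
  intro C _ c h1 h2
  by_cases hD : ∃ x, x ∈ D
  swap
  · exact ⟨C, inferInstance, c, fun _ _ h => h, fun x y => h2 x y (fun h => hD ⟨x, h⟩)⟩
  let τ : W → Set C := fun x => {k | ∃ x', R x x' ∧ c x' = k}
  have tm : ∀ x y, x ≤ y → τ y ⊆ τ x := fun x y h k ⟨z, e1, e2⟩ => ⟨z, r2 _ _ _ h e1, e2⟩
  obtain ⟨_, ⟨x0, hx0, rfl⟩, hmin⟩ := (wellFounded_lt (α := Set C)).has_min (τ '' D)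
    (Set.Nonempty.image _ hD)
  have up : ∀ x y, x ≤ y → τ x = τ x0 → y ∈ D → τ y = τ x0 := by
    intro x y h e hy
    by_contra f
    exact hmin _ ⟨y, hy, rfl⟩ (lt_of_le_of_ne (e ▸ tm x y h) f)
  let D' : LowerSet W := ⟨{y | y ∈ D ∧ τ y ≠ τ x0}, fun y z h hy =>
    ⟨D.lower h hy.1, fun e => hy.2 (up z y h e hy.1)⟩⟩
  have lt : D' < D := lt_of_le_of_ne (fun y hy => hy.1) (fun e => by
    have : x0 ∈ D' := e ▸ hx0
    exact this.2 rfl)
  obtain ⟨C', hC', c', g1, g2⟩ := ih D' lt (C × Prop) (fun x => (c x, x ∈ D ∧ τ x = τ x0))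
    (by
      intro x y e hx
      simp only [Prod.mk.injEq, eq_iff_iff] at e
      exact ⟨h1 x y e.1 hx.1, fun f => hx.2 (e.2.2 ⟨h1 x y e.1 hx.1, f⟩).2⟩)
    (by
      intro x y hx e x' hx'
      simp only [Prod.mk.injEq, eq_iff_iff] at e ⊢
      by_cases a : x ∈ D
      · have b : τ x = τ x0 := by
          by_contra f
          exact hx ⟨a, f⟩
        have b' := e.2.1 ⟨a, b⟩
        have : c x' ∈ τ y := by
          rw [b'.2, ← b]
          exact ⟨x', hx', rfl⟩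
        obtain ⟨y', e1, e2⟩ := this
        exact ⟨y', e1, e2, fun f => ⟨h1 _ _ e2 f.1, up x x' (r1 _ _ hx') b (h1 _ _ e2 f.1)⟩,
          fun f => ⟨h1 _ _ e2.symm f.1, up y y' (r1 _ _ e1) b'.2 (h1 _ _ e2.symm f.1)⟩⟩
      · obtain ⟨y', e1, e2⟩ := h2 x y a e.1 x' hx'
        have n1 : x' ∉ D := fun f => a (D.lower (r1 _ _ hx') f)
        exact ⟨y', e1, e2, fun f => absurd (h1 _ _ e2 f.1) n1, fun f => absurd f.1 n1⟩)
  exact ⟨C', hC', c', fun x y e => congrArg Prod.fst (g1 x y e), g2⟩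

end Pool.Agent.H.MP_d97c10_lc
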